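import Mathlib

set_option autoImplicit false

/-!
Iterated partial sums of integer sequences, verified by arithmetic of large natural numbers:
a sequence `f` of naturals below `2^B` is packed into `∑ f n * 2^(B n)`.
-/

namespace Pool.Agent.H5.Seeds

open Finset

/-- prefix sums -/
def ps (f : ℕ → ℕ) (n : ℕ) : ℕ := ∑ i ∈ range (n + 1), f i

/-- iterated prefix sums of naturals -/
def itn (f : ℕ → ℕ) : ℕ → ℕ → ℕ
  | 0 => f
  | k + 1 => ps (itn f k)

/-- iterated prefix sums of integers -/
def its (g : ℕ → ℤ) : ℕ → ℕ → ℤ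
  | 0 => g
  | k + 1 => fun n => ∑ i ∈ range (n + 1), its g k i

theorem its_sub (p q : ℕ → ℕ) (k n : ℕ) :
    its (fun i => (p i : ℤ) - (q i : ℤ)) k n = (itn p k n : ℤ) - (itn q k n : ℤ) := by
  induction k generalizing n with
  | zero => rfl
  | succ k ih =>
    simp only [its, itn, ps]
    rw [Nat.cast_sum, Nat.cast_sum, ← Finset.sum_sub_distrib]
    exact Finset.sum_congr rfl fun i _ => ih i

theorem its_congr {g h : ℕ → ℤ} {L : ℕ} (hgh : ∀ n < L, g n = h n) (k n : ℕ) (hn : n < L) :
    its g k n = its h k n := by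
  induction k generalizing n with
  | zero => exact hgh n hn
  | succ k ih =>
    simp only [its]
    refine Finset.sum_congr rfl fun i hi => ih i ?_
    have := Finset.mem_range.1 hi
    omega

theorem itn_bound {f : ℕ → ℕ} {L C : ℕ} (hf : ∀ n < L, f n ≤ C) (k n : ℕ) (hn : n < L) :
    itn f k n ≤ C * L ^ k := by
  induction k generalizing n with
  | zero => simpa [itn] using hf n hn
  | succ k ih =>
    simp only [itn, ps]
    calc ∑ i ∈ range (n + 1), itn f k i ≤ ∑ _i ∈ range (n + 1), C * L ^ k :=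
          Finset.sum_le_sum fun i hi => ih i (by have := Finset.mem_range.1 hi; omega)
      _ = (n + 1) * (C * L ^ k) := by simp
      _ ≤ L * (C * L ^ k) := Nat.mul_le_mul_right _ hn
      _ = C * L ^ (k + 1) := by ring

/-- extension of the nonnegativity of the iterated sums from one period -/
theorem its_periodic {g : ℕ → ℤ} {L : ℕ} (hL : 0 < L) (hper : ∀ n, g (n + L) = g n) (k : ℕ)
    (hend : ∀ j, j < k → 0 ≤ its g (j + 1) (L - 1)) (hpos : ∀ n < L, 0 ≤ its g k n) :
    ∀ n, 0 ≤ its g k n := by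
  have hD : ∀ j, j ≤ k → ∀ n, 0 ≤ its g j (n + L) - its g j n := by
    intro j
    induction j with
    | zero => intro _ n; simp [its, hper]
    | succ j ih =>
      intro hj n
      have e1 : its g (j + 1) (n + L) =
          its g (j + 1) (L - 1) + ∑ i ∈ range (n + 1), its g j (i + L) := by
        simp only [its]
        have e2 : n + L + 1 = L + (n + 1) := by ring
        rw [e2, Finset.sum_range_add, Nat.sub_add_cancel hL]
        congr 1
        exact Finset.sum_congr rfl fun i _ => by rw [add_comm]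
      rw [e1]
      have e3 : its g (j + 1) n = ∑ i ∈ range (n + 1), its g j i := rfl
      rw [e3]
      have e4 : 0 ≤ ∑ i ∈ range (n + 1), (its g j (i + L) - its g j i) :=
        Finset.sum_nonneg fun i _ => ih (by omega) i
      rw [Finset.sum_sub_distrib] at e4
      have e5 := hend j (by omega)
      linarith
  intro n
  induction n using Nat.strong_induction_on with
  | _ n ih =>
    rcases lt_or_ge n L with h | h
    · exact hpos n h
    · have h1 := ih (n - L) (by omega)
      have h2 := hD k le_rfl (n - L)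
      rw [Nat.sub_add_cancel h] at h2
      linarith

/-- packing -/
def P (B L : ℕ) (f : ℕ → ℕ) : ℕ := ∑ n ∈ range L, f n * 2 ^ (B * n)

theorem P_succ (B L : ℕ) (f : ℕ → ℕ) : P B (L + 1) f = P B L f + f L * 2 ^ (B * L) := by
  simp [P, Finset.sum_range_succ]

theorem P_zero (B : ℕ) (f : ℕ → ℕ) : P B 0 f = 0 := by simp [P]

theorem P_congr {B L : ℕ} {f g : ℕ → ℕ} (h : ∀ n < L, f n = g n) : P B L f = P B L g :=
  Finset.sum_congr rfl fun n hn => by rw [h n (Finset.mem_range.1 hn)]

theorem P_add (B L : ℕ) (f g : ℕ → ℕ) : P B L (fun n => f n + g n) = P B L f + P B L g := by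
  simp [P, add_mul, Finset.sum_add_distrib]

theorem P_lt {B L : ℕ} {f : ℕ → ℕ} (h : ∀ n < L, f n < 2 ^ B) : P B L f < 2 ^ (B * L) := by
  induction L with
  | zero => simp [P]
  | succ L ih =>
    rw [P_succ]
    have h1 := ih fun n hn => h n (by omega)
    have h2 := h L (by omega)
    calc P B L f + f L * 2 ^ (B * L) < 2 ^ (B * L) + f L * 2 ^ (B * L) := by omega
      _ = (f L + 1) * 2 ^ (B * L) := by ring
      _ ≤ 2 ^ B * 2 ^ (B * L) := Nat.mul_le_mul_right _ h2
      _ = 2 ^ (B * (L + 1)) := by rw [← pow_add]; congr 1; ring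

theorem P_inj {B L : ℕ} {f g : ℕ → ℕ} (hf : ∀ n < L, f n < 2 ^ B) (hg : ∀ n < L, g n < 2 ^ B)
    (h : P B L f = P B L g) : ∀ n < L, f n = g n := by
  induction L with
  | zero => intro n hn; omega
  | succ L ih =>
    rw [P_succ, P_succ] at h
    have h1 := P_lt (B := B) fun n (hn : n < L) => hf n (by omega)
    have h2 := P_lt (B := B) fun n (hn : n < L) => hg n (by omega)
    have h3 : f L = g L := by
      have e1 : (P B L f + f L * 2 ^ (B * L)) / 2 ^ (B * L) =
          (P B L g + g L * 2 ^ (B * L)) / 2 ^ (B * L) := by rw [h]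
      rw [Nat.add_mul_div_right _ _ (by positivity), Nat.add_mul_div_right _ _ (by positivity),
        Nat.div_eq_of_lt h1, Nat.div_eq_of_lt h2] at e1
      omega
    rw [h3] at h
    have h4 := ih (fun n hn => hf n (by omega)) (fun n hn => hg n (by omega)) (by omega)
    intro n hn
    rcases Nat.lt_succ_iff_lt_or_eq.1 hn with h5 | h5
    · exact h4 n h5
    · rw [h5]; exact h3

/-- top digit -/
theorem P_top {B L : ℕ} {f : ℕ → ℕ} (hL : 0 < L) (hf : ∀ n < L, f n < 2 ^ B) :
    P B L f / 2 ^ (B * (L - 1)) = f (L - 1) := by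
  obtain ⟨L, rfl⟩ : ∃ L', L = L' + 1 := ⟨L - 1, by omega⟩
  rw [Nat.add_sub_cancel, P_succ, Nat.add_mul_div_right _ _ (by positivity),
    Nat.div_eq_of_lt (P_lt fun n hn => hf n (by omega))]
  simp

theorem P_mul_ps (B L : ℕ) (f : ℕ → ℕ) (hf : ∀ n < L, ps f n < 2 ^ B) :
    (P B L f * P B L (fun _ => 1)) % 2 ^ (B * L) = P B L (ps f) := by
  have hlt := P_lt (f := ps f) hf
  suffices h : (P B L f * P B L (fun _ => 1)) % 2 ^ (B * L) = P B L (ps f) % 2 ^ (B * L) by
    rw [h, Nat.mod_eq_of_lt hlt]
  -- work in the integers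
  have hU : ∀ L : ℕ, ((1 : ℤ) - 2 ^ B) * (P B L (fun _ => 1) : ℤ) = 1 - 2 ^ (B * L) := by
    intro L
    induction L with
    | zero => simp [P]
    | succ L ih =>
      rw [P_succ]
      push_cast
      rw [mul_add, ih, show B * (L + 1) = B * L + B by ring, pow_add]
      ring
  have hPs : ∀ L : ℕ, ((1 : ℤ) - 2 ^ B) * (P B L (ps f) : ℤ) =
      (P B L f : ℤ) - (if L = 0 then 0 else (ps f (L - 1) : ℤ)) * 2 ^ (B * L) := by
    intro L
    induction L with
    | zero => simp [P]
    | succ L ih =>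
      rw [P_succ, P_succ]
      push_cast
      rw [mul_add, ih, show B * (L + 1) = B * L + B by ring, pow_add]
      rcases Nat.eq_zero_or_pos L with h | h
      · subst h
        simp [ps]
        ring
      · have e : (ps f L : ℤ) = (ps f (L - 1) : ℤ) + (f L : ℤ) := by
          unfold ps
          rw [Nat.sub_add_cancel h, Finset.sum_range_succ]
          push_cast
          ring
        rw [if_neg h.ne', e]
        ring
  have hcop : IsCoprime ((2 : ℤ) ^ (B * L)) ((1 : ℤ) - 2 ^ B) := by
    rcases Nat.eq_zero_or_pos B with h | h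
    · subst h
      rw [zero_mul, pow_zero]
      exact isCoprime_one_left
    · apply IsCoprime.pow_left
      have e : (2 : ℤ) ^ B = 2 * 2 ^ (B - 1) := by
        rw [← pow_succ', Nat.sub_add_cancel h]
      rw [e]
      exact ⟨2 ^ (B - 1), 1, by ring⟩
  have hdvd : ((2 : ℤ) ^ (B * L)) ∣ ((1 : ℤ) - 2 ^ B) *
      ((P B L f : ℤ) * (P B L (fun _ => 1) : ℤ) - (P B L (ps f) : ℤ)) := by
    refine ⟨(if L = 0 then 0 else (ps f (L - 1) : ℤ)) - (P B L f : ℤ), ?_⟩
    have h1 := hU L
    have h2 := hPs L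
    calc ((1 : ℤ) - 2 ^ B) *
        ((P B L f : ℤ) * (P B L (fun _ => 1) : ℤ) - (P B L (ps f) : ℤ))
        = (P B L f : ℤ) * (((1 : ℤ) - 2 ^ B) * (P B L (fun _ => 1) : ℤ)) -
          ((1 : ℤ) - 2 ^ B) * (P B L (ps f) : ℤ) := by ring
      _ = _ := by rw [h1, h2]; ring
  have hd2 := hcop.dvd_of_dvd_mul_left hdvd
  have hd3 : (P B L f * P B L (fun _ => 1)) ≡ P B L (ps f) [MOD 2 ^ (B * L)] := by
    rw [← Int.natCast_modEq_iff]
    apply Int.ModEq.symm
    rw [Int.modEq_iff_dvd]
    push_cast
    exact hd2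
  exact hd3

/-- strided packing -/
theorem P_stride (B L m : ℕ) (hm : 0 < m) (f : ℕ → ℕ) :
    P B (m * L) (fun n => if m ∣ n then f (n / m) else 0) = P (B * m) L f := by
  induction L with
  | zero => simp [P]
  | succ L ih =>
    rw [P_succ (B * m), ← ih]
    unfold P
    rw [show m * (L + 1) = m * L + m by ring, Finset.sum_range_add]
    congr 1
    rw [Finset.sum_eq_single_of_mem 0 (Finset.mem_range.2 hm)]
    · simp only [add_zero]
      rw [if_pos (dvd_mul_right m L), Nat.mul_div_cancel_left L hm, mul_assoc]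
    · intro i hi hi0
      have h1 := Finset.mem_range.1 hi
      have : ¬ m ∣ m * L + i := by
        intro h
        have h2 := (Nat.dvd_add_right (dvd_mul_right m L)).1 h
        exact absurd (Nat.le_of_dvd (Nat.pos_of_ne_zero hi0) h2) (by omega)
      simp [this]

end Pool.Agent.H5.Seeds
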