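import Mathlib
import Pool.Agent.H5.Seeds.Pack

set_option autoImplicit false

namespace Pool.Agent.H5.Seeds

open Finset

theorem P_digit {B L : ℕ} {f : ℕ → ℕ} (hf : ∀ n < L, f n < 2 ^ B) {n : ℕ} (hn : n < L) :
    P B L f / 2 ^ (B * n) % 2 ^ B = f n := by
  induction L with
  | zero => omega
  | succ L ih =>
    have hlt := P_lt (B := B) fun n (hn : n < L) => hf n (by omega)
    rw [P_succ]
    rcases Nat.lt_succ_iff_lt_or_eq.1 hn with h | h
    · have e : f L * 2 ^ (B * L) = (f L * 2 ^ (B * (L - n - 1)) * 2 ^ B) * 2 ^ (B * n) := by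
        rw [mul_assoc, mul_assoc, ← pow_add, ← pow_add]
        congr 2
        obtain ⟨r, rfl⟩ : ∃ r, L = n + 1 + r := ⟨L - (n + 1), by omega⟩
        rw [show n + 1 + r - n - 1 = r by omega]
        ring
      rw [e, Nat.add_mul_div_right _ _ (by positivity), Nat.add_mul_mod_self_right]
      exact ih (fun n hn => hf n (by omega)) h
    · subst h
      rw [Nat.add_mul_div_right _ _ (by positivity), Nat.div_eq_of_lt hlt, zero_add]
      exact Nat.mod_eq_of_lt (hf n (by omega))

theorem P_testBit {B L : ℕ} {f : ℕ → ℕ} (hf : ∀ n < L, f n < 2 ^ B) {n i : ℕ} (hn : n < L)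
    (hi : i < B) : (P B L f).testBit (B * n + i) = (f n).testBit i := by
  have h := P_digit hf hn
  have e : (P B L f / 2 ^ (B * n) % 2 ^ B).testBit i = (f n).testBit i := by rw [h]
  rw [Nat.testBit_mod_two_pow] at e
  simp only [hi, decide_true, Bool.true_and] at e
  rw [Nat.testBit_div_two_pow] at e
  rw [← e, add_comm]

theorem land_top {B L : ℕ} (hB : 0 < B) {h : ℕ → ℕ} (hh : ∀ n < L, h n < 2 ^ B)
    (hl : Nat.land (P B L h) (P B L fun _ => 2 ^ (B - 1)) = P B L fun _ => 2 ^ (B - 1)) :
    ∀ n < L, 2 ^ (B - 1) ≤ h n := by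
  intro n hn
  have hH : ∀ n < L, (fun _ : ℕ => 2 ^ (B - 1)) n < 2 ^ B := fun _ _ =>
    Nat.pow_lt_pow_right (by norm_num) (by omega)
  have e1 : (Nat.land (P B L h) (P B L fun _ => 2 ^ (B - 1))).testBit (B * n + (B - 1)) =
      (P B L fun _ => 2 ^ (B - 1)).testBit (B * n + (B - 1)) := by rw [hl]
  have e0 : Nat.land (P B L h) (P B L fun _ => 2 ^ (B - 1)) =
    (P B L h) &&& (P B L fun _ => 2 ^ (B - 1)) := rfl
  rw [e0, Nat.testBit_and, P_testBit hh hn (by omega), P_testBit hH hn (by omega)] at e1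
  simp only [Nat.testBit_two_pow_self, Bool.and_true] at e1
  exact Nat.ge_two_pow_of_testBit e1

/-- evaluation of the argument before the function is applied (for the kernel) -/
def force {α : Type} (n : ℕ) (f : ℕ → α) : α := Nat.rec (motive := fun _ => α) (f 0) (fun k _ => f (Nat.succ k)) n

theorem force_eq {α : Type} (n : ℕ) (f : ℕ → α) : force n f = f n := by
  cases n <;> rfl

/-- packing by binary splitting -/
def build (B : ℕ) (f : ℕ → ℕ) (j : ℕ) : ℕ → ℕ :=
  Nat.rec (motive := fun _ => ℕ → ℕ) (fun s => force s f)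
    (fun j ih s => Nat.add (ih s) (Nat.mul (Nat.pow 2 (Nat.mul B (Nat.pow 2 j)))
      (ih (Nat.add s (Nat.pow 2 j))))) j

theorem build_eq (B : ℕ) (f : ℕ → ℕ) (j s : ℕ) :
    build B f j s = ∑ i ∈ range (2 ^ j), f (s + i) * 2 ^ (B * i) := by
  induction j generalizing s with
  | zero => simp [build, force_eq]
  | succ j ih =>
    have e : build B f (j + 1) s = build B f j s + 2 ^ (B * 2 ^ j) * build B f j (s + 2 ^ j) := rfl
    rw [e, ih, ih, show 2 ^ (j + 1) = 2 ^ j + 2 ^ j by ring, Finset.sum_range_add, Finset.mul_sum]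
    congr 1
    refine Finset.sum_congr rfl fun i _ => ?_
    rw [mul_add B, pow_add, add_assoc]
    ring

/-- truncation -/
def trn (L : ℕ) (f : ℕ → ℕ) (n : ℕ) : ℕ := bif Nat.ble L n then 0 else f n

theorem build_trn (B L : ℕ) (f : ℕ → ℕ) (j : ℕ) (hj : L ≤ 2 ^ j) :
    build B (trn L f) j 0 = P B L f := by
  rw [build_eq]
  unfold P
  obtain ⟨r, hr⟩ := Nat.exists_eq_add_of_le hj
  rw [hr, Finset.sum_range_add]
  have e1 : ∀ i ∈ range L, trn L f (0 + i) * 2 ^ (B * i) = f i * 2 ^ (B * i) := by
    intro i hi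
    have h1 := Finset.mem_range.1 hi
    have : Nat.ble L i = false := by
      rw [← Bool.not_eq_true, Nat.ble_eq]
      omega
    simp [trn, this]
  have e2 : ∀ i ∈ range r, trn L f (0 + (L + i)) * 2 ^ (B * (L + i)) = 0 := by
    intro i _
    have : Nat.ble L (L + i) = true := by
      rw [Nat.ble_eq]; omega
    simp [trn, this]
  rw [Finset.sum_congr rfl e1, Finset.sum_congr rfl e2]
  simp

/-- the check, for packed sequences `p`, `q` -/
def run (U M E H : ℕ) (k : ℕ) : ℕ → ℕ → Bool :=
  Nat.rec (motive := fun _ => ℕ → ℕ → Bool)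
    (fun p q => Nat.beq (Nat.land (Nat.sub (Nat.add p H) q) H) H)
    (fun _ ih p q => force (Nat.mod (Nat.mul p U) M) fun p' => force (Nat.mod (Nat.mul q U) M) fun q' =>
      and (Nat.ble (Nat.div q' E) (Nat.div p' E)) (ih p' q')) k

theorem run_succ (U M E H k p q : ℕ) : run U M E H (k + 1) p q =
    (Nat.ble (q * U % M / E) (p * U % M / E) && run U M E H k (p * U % M) (q * U % M)) := by
  have h : run U M E H (k + 1) p q = force (Nat.mod (Nat.mul p U) M) (fun p' =>
    force (Nat.mod (Nat.mul q U) M) fun q' =>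
      and (Nat.ble (Nat.div q' E) (Nat.div p' E)) (run U M E H k p' q')) := rfl
  rw [h, force_eq, force_eq]
  rfl

theorem run_sound {B L : ℕ} (hB : 0 < B) (hL : 0 < L) (k : ℕ) :
    ∀ p q : ℕ → ℕ, (∀ j, j ≤ k → ∀ n < L, itn p j n < 2 ^ (B - 1)) →
      (∀ j, j ≤ k → ∀ n < L, itn q j n < 2 ^ (B - 1)) →
      run (P B L fun _ => 1) (2 ^ (B * L)) (2 ^ (B * (L - 1))) (P B L fun _ => 2 ^ (B - 1)) k
        (P B L p) (P B L q) = true →
      (∀ j, j < k → itn q (j + 1) (L - 1) ≤ itn p (j + 1) (L - 1)) ∧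
        ∀ n < L, itn q k n ≤ itn p k n := by
  have hBB : 2 ^ B = 2 ^ (B - 1) + 2 ^ (B - 1) := by
    rw [← Nat.mul_two, ← pow_succ, Nat.sub_add_cancel hB]
  induction k with
  | zero =>
    intro p q hp hq h
    refine ⟨fun j hj => absurd hj (by omega), ?_⟩
    have h1 : Nat.land (P B L p + (P B L fun _ => 2 ^ (B - 1)) - P B L q)
        (P B L fun _ => 2 ^ (B - 1)) = P B L fun _ => 2 ^ (B - 1) := by
      have h2 := h
      simp only [run] at h2
      exact Nat.eq_of_beq_eq_true h2
    have h3 : P B L p + (P B L fun _ => 2 ^ (B - 1)) - P B L q =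
        P B L (fun n => p n + 2 ^ (B - 1) - q n) := by
      have e1 : P B L (fun n => (p n + 2 ^ (B - 1) - q n) + q n) =
          P B L (fun n => p n + 2 ^ (B - 1)) := by
        refine P_congr fun n hn => ?_
        have := hq 0 le_rfl n hn
        simp only [itn] at this
        omega
      rw [P_add, P_add] at e1
      omega
    rw [h3] at h1
    have h4 := land_top hB (h := fun n => p n + 2 ^ (B - 1) - q n) (fun n hn => by
      have := hp 0 le_rfl n hn
      simp only [itn] at this
      omega) h1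
    intro n hn
    have h5 := h4 n hn
    have h6 := hq 0 le_rfl n hn
    simp only [itn] at h6 ⊢
    omega
  | succ k ih =>
    intro p q hp hq h
    rw [run_succ, Bool.and_eq_true] at h
    obtain ⟨h1, h2⟩ := h
    have bp : ∀ n < L, ps p n < 2 ^ B := fun n hn => by
      have := hp 1 (by omega) n hn
      simp only [itn] at this
      omega
    have bq : ∀ n < L, ps q n < 2 ^ B := fun n hn => by
      have := hq 1 (by omega) n hn
      simp only [itn] at this
      omega
    rw [P_mul_ps B L p bp, P_mul_ps B L q bq] at h1 h2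
    rw [P_top hL bp, P_top hL bq, Nat.ble_eq] at h1
    have e : ∀ (f : ℕ → ℕ) (j : ℕ), itn (ps f) j = itn f (j + 1) := by
      intro f j
      induction j with
      | zero => rfl
      | succ j ih => simp only [itn]; rw [ih]; rfl
    obtain ⟨h3, h4⟩ := ih (ps p) (ps q) (fun j hj n hn => by
      rw [e]; exact hp (j + 1) (by omega) n hn) (fun j hj n hn => by
      rw [e]; exact hq (j + 1) (by omega) n hn) h2
    refine ⟨fun j hj => ?_, fun n hn => ?_⟩
    · rcases j with _ | j
      · simpa [itn] using h1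
      · have := h3 j (by omega)
        rwa [e, e] at this
    · have := h4 n hn
      rwa [e, e] at this

end Pool.Agent.H5.Seeds
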