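import Mathlib
import Pool.Agent.H5.Seeds.Val

set_option autoImplicit false

namespace Pool.Agent.H5.Seeds

open Finset DirichletCharacter

/-- packing of a truncated sequence by binary splitting -/
def buildT (B L : ℕ) (f : ℕ → ℕ) (j : ℕ) : ℕ → ℕ :=
  Nat.rec (motive := fun _ => ℕ → ℕ)
    (fun s => force s fun s => cond (Nat.ble L s) 0 (f s))
    (fun j ih s => force s fun s => cond (Nat.ble L s) 0
      (Nat.add (ih s) (Nat.mul (Nat.pow 2 (Nat.mul B (Nat.pow 2 j)))
        (ih (Nat.add s (Nat.pow 2 j)))))) j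

theorem ble_false {L i : ℕ} (h : i < L) : Nat.ble L i = false := by
  rw [← Bool.not_eq_true, Nat.ble_eq]; omega

theorem ble_true {L i : ℕ} (h : L ≤ i) : Nat.ble L i = true := by
  rw [Nat.ble_eq]; exact h

theorem buildT_eq (B L : ℕ) (f : ℕ → ℕ) (j s : ℕ) :
    buildT B L f j s = ∑ i ∈ range (2 ^ j), trn L f (s + i) * 2 ^ (B * i) := by
  induction j generalizing s with
  | zero =>
    have e : buildT B L f 0 s = force s fun s => cond (Nat.ble L s) 0 (f s) := rfl
    rw [e, force_eq]
    simp [trn]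
  | succ j ih =>
    have e : buildT B L f (j + 1) s = force s fun s => cond (Nat.ble L s) 0
      (buildT B L f j s + 2 ^ (B * 2 ^ j) * buildT B L f j (s + 2 ^ j)) := rfl
    rw [e, force_eq]
    rcases lt_or_ge s L with h | h
    · rw [ble_false h, cond_false]
      rw [ih, ih, show 2 ^ (j + 1) = 2 ^ j + 2 ^ j by ring, Finset.sum_range_add, Finset.mul_sum]
      congr 1
      refine Finset.sum_congr rfl fun i _ => ?_
      rw [mul_add B, pow_add, add_assoc]
      ring
    · rw [ble_true h, cond_true]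
      symm
      refine Finset.sum_eq_zero fun i _ => ?_
      rw [trn, ble_true (show L ≤ s + i by omega)]
      simp

theorem buildT_P (B L : ℕ) (f : ℕ → ℕ) (j : ℕ) (hj : L ≤ 2 ^ j) :
    buildT B L f j 0 = P B L f := by
  rw [buildT_eq, ← build_eq, build_trn B L f j hj]

/-- sums of strided packings -/
def pk (B L j : ℕ) (f : ℕ → ℕ) : List ℕ → ℕ
  | [] => 0
  | m :: ms => Nat.add (buildT (Nat.mul B m) (Nat.div L m) f j 0) (pk B L j f ms)

theorem pk_eq (B L j : ℕ) (f : ℕ → ℕ) (hj : L ≤ 2 ^ j) (cs : List ℕ) (h0 : ∀ m ∈ cs, 0 < m)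
    (hd : ∀ m ∈ cs, m ∣ L) :
    pk B L j f cs = P B L (fun n => (cs.map fun m => if m ∣ n then f (n / m) else 0).sum) := by
  induction cs with
  | nil => simp [pk, P]
  | cons m ms ih =>
    have e : pk B L j f (m :: ms) = buildT (B * m) (L / m) f j 0 + pk B L j f ms := rfl
    have hm0 := h0 m List.mem_cons_self
    have hmd := hd m List.mem_cons_self
    rw [e, ih (fun x hx => h0 x (List.mem_cons_of_mem _ hx))
      (fun x hx => hd x (List.mem_cons_of_mem _ hx)),
      buildT_P _ _ _ _ ((Nat.div_le_self L m).trans hj)]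
    have e2 := P_stride B (L / m) m hm0 f
    rw [Nat.mul_div_cancel' hmd] at e2
    rw [← e2, ← P_add]
    rfl

theorem U_eq {B : ℕ} (hB : 0 < B) (L : ℕ) :
    (P B L fun _ => 1) = (2 ^ (B * L) - 1) / (2 ^ B - 1) := by
  have h1 : ∀ L, (P B L fun _ => 1) * (2 ^ B - 1) + 1 = 2 ^ (B * L) := by
    intro L
    induction L with
    | zero => simp [P]
    | succ L ih =>
      rw [P_succ]
      have hp : 1 ≤ 2 ^ B := Nat.one_le_two_pow
      obtain ⟨r, hr⟩ : ∃ r, 2 ^ B = r + 1 := ⟨2 ^ B - 1, by omega⟩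
      have e : B * (L + 1) = B * L + B := by ring
      rw [hr, Nat.add_sub_cancel] at ih
      rw [e, pow_add, hr, Nat.add_sub_cancel, ← ih]
      ring
  have hp : 2 ≤ 2 ^ B := by
    calc 2 = 2 ^ 1 := rfl
      _ ≤ 2 ^ B := Nat.pow_le_pow_right (by norm_num) hB
  have h2 := h1 L
  have h3 : 2 ^ (B * L) - 1 = (P B L fun _ => 1) * (2 ^ B - 1) := by omega
  rw [h3, Nat.mul_div_cancel _ (by omega)]

theorem H_eq (B L : ℕ) : (P B L fun _ => 2 ^ (B - 1)) = 2 ^ (B - 1) * P B L fun _ => 1 := by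
  unfold P
  rw [Finset.mul_sum]
  refine Finset.sum_congr rfl fun i _ => by ring

theorem sum_le_three (cs : List ℕ) (f : ℕ → ℕ) (hf : ∀ n, f n ≤ 3) (n : ℕ) :
    (cs.map fun m => if m ∣ n then f (n / m) else 0).sum ≤ 3 * cs.length := by
  induction cs with
  | nil => simp
  | cons m ms ih =>
    rw [List.map_cons, List.sum_cons, List.length_cons]
    have h2 : (if m ∣ n then f (n / m) else 0) ≤ 3 := by
      split_ifs
      · exact hf _
      · omega
    omega

theorem sum_sg (cs : List ℕ) (v : ℕ → ℕ) (n : ℕ) :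
    (cs.map fun m => if m ∣ n then sg (v (n / m)) else 0).sum =
      (((cs.map fun m => if m ∣ n then 2 * (v (n / m) % 2) else 0).sum : ℕ) : ℤ) -
        (((cs.map fun m => if m ∣ n then v (n / m) else 0).sum : ℕ) : ℤ) := by
  induction cs with
  | nil => simp
  | cons m ms ih =>
    rw [List.map_cons, List.sum_cons, List.map_cons, List.sum_cons, List.map_cons,
      List.sum_cons, ih]
    split_ifs with h
    · simp only [sg]
      push_cast
      ring
    · push_cast
      ring

/-- the whole check -/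
def check (T : List (ℕ × ℕ)) (cs : List ℕ) (L k B j : ℕ) : Bool :=
  force (Nat.div (Nat.sub (Nat.pow 2 (Nat.mul B L)) 1) (Nat.sub (Nat.pow 2 B) 1)) fun U =>
  force (pk B L j (fun n => Nat.mul 2 (Nat.mod (vv T n) 2)) cs) fun p =>
  force (pk B L j (fun n => vv T n) cs) fun q =>
    run U (Nat.pow 2 (Nat.mul B L)) (Nat.pow 2 (Nat.mul B (Nat.sub L 1)))
      (Nat.mul (Nat.pow 2 (Nat.sub B 1)) U) k p q

/-- side conditions -/
def side (N : ℕ) (cs : List ℕ) (L k B j : ℕ) : Bool :=
  decide (0 < L) && decide (0 < B) && decide (L ≤ 2 ^ j) && decide (cs.Nodup) &&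
    cs.all (fun m => decide (0 < m) && decide (m * N ∣ L)) && decide (cs ≠ []) &&
    decide (3 * cs.length * L ^ k < 2 ^ (B - 1))

theorem check_its {N : ℕ} {T : List (ℕ × ℕ)} {cs : List ℕ} {L k B j : ℕ}
    (hs : side N cs L k B j = true) (hv : ∀ n, ok (vv T n))
    (hper : ∀ n, sg (vv T (n + N)) = sg (vv T n))
    (hc : check T cs L k B j = true) :
    ∀ n, 0 ≤ its (fun n => (cs.map fun m => if m ∣ n then sg (vv T (n / m)) else 0).sum) k n := by
  simp only [side, Bool.and_eq_true, decide_eq_true_eq, List.all_eq_true] at hs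
  obtain ⟨⟨⟨⟨⟨⟨hL, hB⟩, hj⟩, hnd⟩, hall⟩, hne⟩, hbd⟩ := hs
  have h0 : ∀ m ∈ cs, 0 < m := fun m hm => (hall m hm).1
  have hd : ∀ m ∈ cs, m ∣ L := fun m hm => (Dvd.intro _ rfl).trans (hall m hm).2
  set p : ℕ → ℕ := fun n => (cs.map fun m => if m ∣ n then 2 * (vv T (n / m) % 2) else 0).sum with hp
  set q : ℕ → ℕ := fun n => (cs.map fun m => if m ∣ n then vv T (n / m) else 0).sum with hq
  have e1 : check T cs L k B j =
      run (P B L fun _ => 1) (2 ^ (B * L)) (2 ^ (B * (L - 1))) (P B L fun _ => 2 ^ (B - 1)) k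
        (P B L p) (P B L q) := by
    unfold check
    rw [force_eq, force_eq, force_eq]
    rw [H_eq, U_eq hB, hp, hq, ← pk_eq B L j (fun n => 2 * (vv T n % 2)) hj cs h0 hd,
      ← pk_eq B L j (fun n => vv T n) hj cs h0 hd]
    rfl
  rw [e1] at hc
  have hok : ∀ n, vv T n ≤ 3 := fun n => by
    rcases hv n with h | h | h <;> omega
  have bp : ∀ n, p n ≤ 3 * cs.length := fun n => by
    refine sum_le_three cs (fun n => 2 * (vv T n % 2)) (fun n => ?_) n
    have := Nat.mod_lt (vv T n) (show 2 > 0 by norm_num)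
    show 2 * (vv T n % 2) ≤ 3
    omega
  have bq : ∀ n, q n ≤ 3 * cs.length := fun n => sum_le_three cs (fun n => vv T n) hok n
  have hLk : ∀ i, i ≤ k → L ^ i ≤ L ^ k := fun i hi => Nat.pow_le_pow_right hL hi
  obtain ⟨r1, r2⟩ := run_sound hB hL k p q
    (fun i hi n hn => (itn_bound (C := 3 * cs.length) (fun n _ => bp n) i n hn).trans_lt
      ((Nat.mul_le_mul_left _ (hLk i hi)).trans_lt hbd))
    (fun i hi n hn => (itn_bound (C := 3 * cs.length) (fun n _ => bq n) i n hn).trans_lt
      ((Nat.mul_le_mul_left _ (hLk i hi)).trans_lt hbd)) hc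
  have eg : (fun n => (cs.map fun m => if m ∣ n then sg (vv T (n / m)) else 0).sum) =
      fun n => (p n : ℤ) - (q n : ℤ) := by
    funext n
    exact sum_sg cs (vv T) n
  rw [eg]
  refine its_periodic hL ?_ k (fun i hi => ?_) (fun n hn => ?_)
  · intro n
    have := congrFun eg
    rw [← this, ← this]
    have hN : ∀ m n r : ℕ, sg (vv T (n + N * r)) = sg (vv T n) := by
      intro _ n r
      induction r with
      | zero => rfl
      | succ r ih => rw [show n + N * (r + 1) = n + N * r + N by ring, hper, ih]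
    congr 1
    refine List.map_congr_left fun m hm => ?_
    obtain ⟨r, hr⟩ := (hall m hm).2
    have hm0 := h0 m hm
    have h3 : m ∣ n + L ↔ m ∣ n := (Nat.dvd_add_iff_left (hd m hm)).symm
    by_cases h : m ∣ n
    · rw [if_pos (h3.2 h), if_pos h, hr, show n + m * N * r = n + m * (N * r) by ring,
        Nat.add_mul_div_left _ _ hm0, hN m]
    · rw [if_neg (fun h' => h (h3.1 h')), if_neg h]
  · rw [its_sub]
    have := r1 i hi
    have h4 : (itn q (i + 1) (L - 1) : ℤ) ≤ (itn p (i + 1) (L - 1) : ℤ) := by exact_mod_cast this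
    linarith
  · rw [its_sub]
    have := r2 n hn
    have h4 : (itn q k n : ℤ) ≤ (itn p k n : ℤ) := by exact_mod_cast this
    linarith

end Pool.Agent.H5.Seeds
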