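import Mathlib
import Pool.Agent.H5.Seeds.Cert

set_option autoImplicit false

namespace Pool.Agent.H5.Seeds

def t3 : ℕ × ℕ := (3, 52)
def t5 : ℕ × ℕ := (5, 500)
def t7 : ℕ × ℕ := (7, 15828)
def t11 : ℕ × ℕ := (11, 3667316)
def t17 : ℕ × ℕ := (17, 6307577300)

theorem c3 : check [t3] [1] 3 1 5 2 = true := by decide +kernel
theorem c5 : check [t5] [1] 5 2 8 3 = true := by decide +kernel
theorem c15 : check [t3, t5] [1] 15 1 7 4 = true := by decide +kernel
theorem c7 : check [t7] [1] 7 1 6 3 = true := by decide +kernel
theorem c21 : check [t3, t7] [1] 21 2 12 5 = true := by decide +kernel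
theorem c35 : check [t5, t7] [1] 35 1 8 6 = true := by decide +kernel
theorem c105 : check [t3, t5, t7] [1] 105 2 17 7 = true := by decide +kernel
theorem c11 : check [t11] [1] 11 1 7 4 = true := by decide +kernel
theorem c33 : check [t3, t11] [1] 33 2 13 6 = true := by decide +kernel
theorem c55 : check [t5, t11] [1] 55 1 9 6 = true := by decide +kernel
theorem c165 : check [t3, t5, t11] [1] 165 2 18 8 = true := by decide +kernel
theorem c77 : check [t7, t11] [1, 3] 231 2 20 8 = true := by decide +kernel
theorem c231 : check [t3, t7, t11] [1] 231 1 11 8 = true := by decide +kernel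
theorem c385 : check [t5, t7, t11] [1] 385 2 20 9 = true := by decide +kernel
theorem c1155 : check [t3, t5, t7, t11] [1] 1155 2 23 11 = true := by decide +kernel
theorem c17 : check [t17] [1] 17 2 11 5 = true := by decide +kernel
theorem c51 : check [t3, t17] [1] 51 2 14 6 = true := by decide +kernel
theorem c85 : check [t5, t17] [1] 85 2 16 7 = true := by decide +kernel
theorem c255 : check [t3, t5, t17] [1] 255 1 11 8 = true := by decide +kernel
theorem c119 : check [t7, t17] [1] 119 1 10 7 = true := by decide +kernel
theorem c357 : check [t3, t7, t17] [1] 357 3 29 9 = true := by decide +kernel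
theorem c595 : check [t5, t7, t17] [1, 2] 1190 6 65 11 = true := by decide +kernel
theorem c1785 : check [t3, t5, t7, t17] [1] 1785 2 25 11 = true := by decide +kernel
theorem c187 : check [t11, t17] [1, 3, 5, 15] 2805 4 51 12 = true := by decide +kernel
theorem c561 : check [t3, t11, t17] [1] 561 2 21 10 = true := by decide +kernel
theorem c935 : check [t5, t11, t17] [1] 935 1 13 10 = true := by decide +kernel
theorem c2805 : check [t3, t5, t11, t17] [1, 2, 7, 14] 39270 2 36 16 = true := by decide +kernel
theorem c1309 : check [t7, t11, t17] [1] 1309 2 24 11 = true := by decide +kernel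
theorem c3927 : check [t3, t7, t11, t17] [1] 3927 1 15 12 = true := by decide +kernel
theorem c6545 : check [t5, t7, t11, t17] [1] 6545 2 28 13 = true := by decide +kernel
theorem c19635 : check [t3, t5, t7, t11, t17] [1] 19635 2 32 15 = true := by decide +kernel

end Pool.Agent.H5.Seeds
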