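import Mathlib

set_option autoImplicit false

/-!
Linear algebra over the field with two elements: `r` points of `F_2^r` lie in an affine hyperplane.
-/

namespace Pool.Agent.H5.Seeds

open Finset

/-- `r` points lie in a hyperplane -/
theorem exists_functional {r : ℕ} (hr : 1 ≤ r) (A : Finset (Fin r → ZMod 2)) (hA : A.card ≤ r) :
    ∃ (l : (Fin r → ZMod 2) →ₗ[ZMod 2] ZMod 2) (c : ZMod 2), l ≠ 0 ∧ ∀ a ∈ A, l a = c := by
  classical
  let Φ : ((Module.Dual (ZMod 2) (Fin r → ZMod 2)) × ZMod 2) →ₗ[ZMod 2] (A → ZMod 2) :=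
    LinearMap.pi fun a => (LinearMap.applyₗ (R := ZMod 2) (a : Fin r → ZMod 2)).coprod LinearMap.id
  have hΦ : ∀ (x : (Module.Dual (ZMod 2) (Fin r → ZMod 2)) × ZMod 2) (a : A),
      Φ x a = x.1 a + x.2 := by
    intro x a
    simp [Φ]
  have hrank : Module.finrank (ZMod 2) (A → ZMod 2) <
      Module.finrank (ZMod 2) ((Module.Dual (ZMod 2) (Fin r → ZMod 2)) × ZMod 2) := by
    rw [Module.finrank_fintype_fun_eq_card, Module.finrank_prod, Subspace.dual_finrank_eq,
      Module.finrank_fintype_fun_eq_card, Module.finrank_self]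
    simp only [Fintype.card_coe, Fintype.card_fin]
    omega
  obtain ⟨x, hx, hx0⟩ := (Submodule.ne_bot_iff _).1 (LinearMap.ker_ne_bot_of_finrank_lt hrank)
  rw [LinearMap.mem_ker] at hx
  have h1 : ∀ a ∈ A, x.1 a + x.2 = 0 := fun a ha => by
    rw [← hΦ x ⟨a, ha⟩, hx]; rfl
  by_cases h : x.1 = 0
  · -- then `A` is empty
    have hA0 : A = ∅ := by
      rw [Finset.eq_empty_iff_forall_notMem]
      intro a ha
      have := h1 a ha
      rw [h, LinearMap.zero_apply, zero_add] at this
      exact hx0 (Prod.ext h this)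
    subst hA0
    refine ⟨LinearMap.proj (⟨0, hr⟩ : Fin r), 0, ?_, by simp⟩
    intro h0
    have := LinearMap.congr_fun h0 (fun _ => 1)
    simp at this
  · refine ⟨x.1, x.2, h, fun a ha => ?_⟩
    have := h1 a ha
    have h2 : ∀ y z : ZMod 2, y + z = 0 → y = z := by decide
    exact h2 _ _ this

theorem exists_subgroup {Γ : Type*} [CommGroup Γ] {r : ℕ} (hr : 1 ≤ r)
    (E : (Fin r → ZMod 2) → Γ) (hE : ∀ v w, E (v + w) = E v * E w) (X : Γ) (hX : X * X = 1)
    (Pos : Γ → Prop) (h1 : ¬ Pos 1) (hpos : ∀ v, v ≠ 0 → Pos (E v))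
    (A : Finset (Fin r → ZMod 2)) (hA : A.card ≤ r) (hB : ∀ v, v ∉ A → Pos (X * E v)) :
    ∃ G : Subgroup Γ, Nat.card G = 2 ^ r ∧ (∀ g ∈ G, g ^ 2 = 1) ∧
      (∀ g ∈ G, g ≠ 1 → Pos g) ∧ (∀ g ∈ G, ∃ v, g = E v ∨ g = X * E v) ∧ ∃ v, X * E v ∈ G := by
  classical
  obtain ⟨l, c, hl, hlA⟩ := exists_functional hr A hA
  have hE0 : E 0 = 1 := by
    have := hE 0 0
    rw [add_zero] at this
    exact left_eq_mul.1 this
  have hEE : ∀ v, E v * E v = 1 := fun v => by
    rw [← hE, ← hE0]
    congr 1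
    funext i
    have : ∀ y : ZMod 2, y + y = 0 := by decide
    exact this (v i)
  -- the linear functional on `V × F_2`
  let f : ((Fin r → ZMod 2) × ZMod 2) →ₗ[ZMod 2] ZMod 2 :=
    l.coprod ((c + 1) • LinearMap.id)
  have hf : ∀ x, f x = l x.1 + (c + 1) * x.2 := fun x => by simp [f]
  obtain ⟨v1, hv1⟩ : ∃ v, l v = c + 1 := by
    obtain ⟨v, hv⟩ : ∃ v, l v ≠ 0 := by
      by_contra h
      push Not at h
      exact hl (LinearMap.ext h)
    have h2 : ∀ y z : ZMod 2, y ≠ 0 → z * y = z := by decide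
    exact ⟨(c + 1) • v, by rw [map_smul, smul_eq_mul]; exact h2 _ _ hv⟩
  have hcc : ∀ c : ZMod 2, c + 1 + (c + 1) = 0 := by decide
  have hfr : Module.finrank (ZMod 2) (LinearMap.ker f) = r := by
    have h2 := LinearMap.finrank_range_add_finrank_ker f
    have h3 : LinearMap.range f = ⊤ := by
      rw [LinearMap.range_eq_top]
      intro y
      obtain ⟨v, hv⟩ : ∃ v, l v ≠ 0 := by
        by_contra h
        push Not at h
        exact hl (LinearMap.ext h)
      refine ⟨(y • v, 0), ?_⟩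
      rw [hf]
      have h2 : ∀ y z : ZMod 2, y ≠ 0 → z * y = z := by decide
      simp only [map_smul, smul_eq_mul, mul_zero, add_zero]
      exact h2 _ _ hv
    rw [h3, finrank_top, Module.finrank_self, Module.finrank_prod,
      Module.finrank_fintype_fun_eq_card, Fintype.card_fin, Module.finrank_self] at h2
    omega
  let Θ : Multiplicative ((Fin r → ZMod 2) × ZMod 2) →* Γ :=
    { toFun := fun x => E (Multiplicative.toAdd x).1 * X ^ (Multiplicative.toAdd x).2.val
      map_one' := by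
        simp [hE0]
      map_mul' := by
        intro x y
        rw [toAdd_mul, Prod.fst_add, Prod.snd_add, hE]
        have h2 : ∀ a b : ZMod 2, X ^ (a + b).val = X ^ a.val * X ^ b.val := by
          intro a b
          have h3 : (∀ a b : ZMod 2, (a + b).val = a.val + b.val ∨ (a + b).val + 2 = a.val + b.val) := by
            decide
          rcases h3 a b with h | h
          · rw [h, pow_add]
          · rw [← pow_add, ← h, pow_add, pow_two, hX, mul_one]
        rw [h2]
        exact mul_mul_mul_comm _ _ _ _ }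
  have hΘ : ∀ x, Θ x = E (Multiplicative.toAdd x).1 * X ^ (Multiplicative.toAdd x).2.val :=
    fun x => rfl
  let K : Subgroup (Multiplicative ((Fin r → ZMod 2) × ZMod 2)) :=
    AddSubgroup.toSubgroup (LinearMap.ker f).toAddSubgroup
  have hK : ∀ x, x ∈ K ↔ f (Multiplicative.toAdd x) = 0 := fun x => Iff.rfl
  have hcases : ∀ y : ZMod 2, y = 0 ∨ y = 1 := by decide
  have key : ∀ x ∈ K, x ≠ 1 → Pos (Θ x) := by
    intro x hx hx1
    rw [hK, hf] at hx
    rw [hΘ]
    rcases hcases (Multiplicative.toAdd x).2 with h | h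
    · rw [h, ZMod.val_zero, pow_zero, mul_one]
      apply hpos
      intro h3
      apply hx1
      have : Multiplicative.toAdd x = 0 := Prod.ext h3 h
      exact this
    · rw [h, ZMod.val_one, pow_one, mul_comm]
      apply hB
      intro h3
      have h4 := hlA _ h3
      rw [h4, h, mul_one] at hx
      have : ∀ c : ZMod 2, c + (c + 1) ≠ 0 := by decide
      exact this c hx
  have hinj : ∀ x ∈ K, Θ x = 1 → x = 1 := by
    intro x hx h
    by_contra hx1
    have := key x hx hx1
    rw [h] at this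
    exact h1 this
  refine ⟨K.map Θ, ?_, ?_, ?_, ?_, v1, ?_⟩
  · have e1 : Nat.card (K.map Θ) = Nat.card K := by
      symm
      refine Nat.card_congr (Equiv.ofBijective (fun x : K => (⟨Θ x, x, x.2, rfl⟩ : K.map Θ)) ⟨?_, ?_⟩)
      · intro x y hxy
        have h2 : Θ x = Θ y := congrArg Subtype.val hxy
        have h3 : Θ (x.1 * y.1⁻¹) = 1 := by
          have h5 : Θ (x.1 * y.1⁻¹) = Θ x.1 * (Θ y.1)⁻¹ := by
            rw [← MonoidHom.map_inv Θ y.1, MonoidHom.map_mul]
          rw [h5, h2, mul_inv_cancel]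
        have h4 := hinj _ (K.mul_mem x.2 (K.inv_mem y.2)) h3
        exact Subtype.ext (mul_inv_eq_one.1 h4)
      · rintro ⟨_, x, hx, rfl⟩
        exact ⟨⟨x, hx⟩, rfl⟩
    rw [e1]
    have e2 : Nat.card K = Nat.card (LinearMap.ker f) := rfl
    rw [e2, Nat.card_eq_fintype_card, Module.card_eq_pow_finrank (K := ZMod 2), hfr, ZMod.card]
  · rintro _ ⟨x, -, rfl⟩
    rw [hΘ, mul_pow, pow_two, hEE, ← pow_mul, mul_comm _ 2, pow_mul, pow_two X, hX, one_pow, mul_one]
  · rintro _ ⟨x, hx, rfl⟩ hne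
    exact key x hx fun h => hne (by rw [h, map_one])
  · rintro _ ⟨x, -, rfl⟩
    refine ⟨(Multiplicative.toAdd x).1, ?_⟩
    rw [hΘ]
    rcases hcases (Multiplicative.toAdd x).2 with h | h
    · left; rw [h, ZMod.val_zero, pow_zero, mul_one]
    · right; rw [h, ZMod.val_one, pow_one, mul_comm]
  · refine ⟨Multiplicative.ofAdd (v1, 1), ?_, ?_⟩
    · show f (v1, 1) = 0
      rw [hf, hv1, mul_one]
      exact hcc c
    · rw [hΘ]
      simp only [toAdd_ofAdd, ZMod.val_one, pow_one]
      exact mul_comm _ _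

end Pool.Agent.H5.Seeds
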