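import Mathlib
import Pool.Agent.H5.Seeds.Pos

set_option autoImplicit false

namespace Pool.Agent.H5.Seeds

open Finset DirichletCharacter Filter Topology
open Pool.Agent.Results.MP_0016c7_nt.SimultaneousTwists (Char Positive twist Twister Class)

/-- the trivial character is not positive -/
theorem not_pos_one (M : ℕ) (hM : M ≠ 0) : ¬ Positive ⟨M, 1⟩ := by
  rintro ⟨_, h⟩
  have h1 := DirichletCharacter.LFunctionTrivChar_residue_one (N := M)
  have h2 : Tendsto (fun n : ℕ => (((1 - 1 / ((n : ℝ) + 2) : ℝ) : ℂ))) atTop (𝓝[≠] 1) := by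
    rw [tendsto_nhdsWithin_iff]
    constructor
    · have h3 : Tendsto (fun n : ℕ => (1 - 1 / ((n : ℝ) + 2) : ℝ)) atTop (𝓝 1) := by
        have h4 : Tendsto (fun n : ℕ => 1 / ((n : ℝ) + 2)) atTop (𝓝 0) := by
          have := (tendsto_const_nhds (x := (1 : ℝ))).div_atTop
            (tendsto_atTop_add_const_right atTop (2 : ℝ) tendsto_natCast_atTop_atTop)
          exact this
        simpa using (tendsto_const_nhds (x := (1 : ℝ))).sub h4
      exact (Complex.continuous_ofReal.tendsto 1).comp h3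
    · refine Eventually.of_forall fun n => ?_
      simp only [Set.mem_compl_iff, Set.mem_singleton_iff]
      intro h5
      have h6 : (1 - 1 / ((n : ℝ) + 2) : ℝ) = 1 := by exact_mod_cast h5
      have h7 : (0 : ℝ) < 1 / ((n : ℝ) + 2) := by positivity
      linarith
  have h3 := h1.comp h2
  have h4 := (Complex.continuous_re.tendsto _).comp h3
  have hprod : (∏ p ∈ M.primeFactors, (1 - (p : ℂ)⁻¹)) =
      ((∏ p ∈ M.primeFactors, (1 - (p : ℝ)⁻¹) : ℝ) : ℂ) := by push_cast; rfl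
  have hpos : 0 < ∏ p ∈ M.primeFactors, (1 - (p : ℝ)⁻¹) := by
    refine Finset.prod_pos fun p hp => ?_
    have h5 : (1 : ℝ) < p := by exact_mod_cast (Nat.prime_of_mem_primeFactors hp).one_lt
    have h6 : (p : ℝ)⁻¹ < 1 := inv_lt_one_of_one_lt₀ h5
    linarith
  rw [hprod, Complex.ofReal_re] at h4
  refine absurd (le_of_tendsto h4 (Eventually.of_forall fun n => ?_)) (not_le.2 hpos)
  have hs : (0 : ℝ) < 1 / ((n : ℝ) + 2) := by positivity
  have hs2 : 1 / ((n : ℝ) + 2) < 1 := by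
    rw [div_lt_one (by positivity)]
    have : (0 : ℝ) ≤ n := Nat.cast_nonneg n
    linarith
  obtain ⟨h5, h6⟩ := h (1 - 1 / ((n : ℝ) + 2)) (by linarith) (by linarith)
  show ((((1 - 1 / ((n : ℝ) + 2) : ℝ) : ℂ) - 1) *
    LFunctionTrivChar M (((1 - 1 / ((n : ℝ) + 2) : ℝ) : ℂ))).re ≤ 0
  have e : (((1 - 1 / ((n : ℝ) + 2) : ℝ) : ℂ) - 1) = ((-(1 / ((n : ℝ) + 2)) : ℝ) : ℂ) := by
    push_cast; ring
  rw [e, Complex.re_ofReal_mul]
  have h7 : 0 < (LFunctionTrivChar M (((1 - 1 / ((n : ℝ) + 2) : ℝ) : ℂ))).re := h6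
  nlinarith

/-- positivity does not depend on the modulus -/
theorem pos_level {N M : ℕ} (hN : N ≠ 0) (hM : M ≠ 0) (hd : N ∣ M) (χ : DirichletCharacter ℂ N)
    (h2 : χ ^ 2 = 1) (hp : Positive ⟨N, χ⟩) : Positive ⟨M, changeLevel hd χ⟩ := by
  have h1 : χ ≠ 1 := by
    rintro rfl
    exact not_pos_one N hN hp
  haveI : NeZero N := ⟨hN⟩
  refine Pool.Agent.TH863.LQ.pos_change hN hM hd χ h1 (fun n => H353.LM.av χ n)
    (fun n _ => H353.LM.av_coe χ h2 n) (fun σ => Pool.Agent.Q190.FK.GG χ σ / Real.Gamma σ)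
    ⟨inferInstance, fun σ hσ => Pool.Agent.Q190.FK.L_real χ h1 h2 hσ⟩ ?_
  intro σ h0 h3
  obtain ⟨_, h4⟩ := hp
  have h5 := (h4 σ h0 h3).2
  have h6 := Pool.Agent.Q190.FK.L_real χ h1 h2 h0
  have h7 : (DirichletCharacter.LFunction χ (σ : ℂ)).re =
    Pool.Agent.Q190.FK.GG χ σ / Real.Gamma σ := by rw [h6, Complex.ofReal_re]
  rw [← h7]
  convert h5

/-- the five primes -/
def five : List ℕ := [3, 5, 7, 11, 17]

theorem seeds (l : List ℕ) (h : l.Sublist five) (hne : l ≠ []) : Positive ⟨l.prod, psi l⟩ := by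
  have h1 : l ∈ List.sublists five := List.mem_sublists.2 h
  have h2 : ∀ l ∈ List.sublists five, l ∈ ([[], [3], [5], [3, 5], [7], [3, 7], [5, 7], [3, 5, 7], [11], [3, 11], [5, 11], [3, 5, 11], [7, 11], [3, 7, 11], [5, 7, 11], [3, 5, 7, 11], [17], [3, 17], [5, 17], [3, 5, 17], [7, 17], [3, 7, 17], [5, 7, 17], [3, 5, 7, 17], [11, 17], [3, 11, 17], [5, 11, 17], [3, 5, 11, 17], [7, 11, 17], [3, 7, 11, 17], [5, 7, 11, 17], [3, 5, 7, 11, 17]] : List (List ℕ)) := by decide
  have h3 := h2 l h1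
  simp only [List.mem_cons, List.not_mem_nil, or_false] at h3
  rcases h3 with rfl | rfl | rfl | rfl | rfl | rfl | rfl | rfl | rfl | rfl | rfl | rfl | rfl | rfl | rfl | rfl | rfl | rfl | rfl | rfl | rfl | rfl | rfl | rfl | rfl | rfl | rfl | rfl | rfl | rfl | rfl | rfl
  · exact absurd rfl hne
  · exact pos3
  · exact pos5
  · exact pos15
  · exact pos7
  · exact pos21
  · exact pos35
  · exact pos105
  · exact pos11
  · exact pos33
  · exact pos55
  · exact pos165
  · exact pos77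
  · exact pos231
  · exact pos385
  · exact pos1155
  · exact pos17
  · exact pos51
  · exact pos85
  · exact pos255
  · exact pos119
  · exact pos357
  · exact pos595
  · exact pos1785
  · exact pos187
  · exact pos561
  · exact pos935
  · exact pos2805
  · exact pos1309
  · exact pos3927
  · exact pos6545
  · exact pos19635

end Pool.Agent.H5.Seeds
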