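import Mathlib
import Pool.Agent.H5.Seeds.Main

set_option autoImplicit false

namespace Pool.Agent.H5.Seeds

open Finset DirichletCharacter Filter Topology
open Pool.Agent.Results.MP_0016c7_nt.SimultaneousTwists (Positive twist Twister Class)

/-- the sublist of `l0` selected by `v` -/
def sel (l0 : List ℕ) (v : Fin l0.length → ZMod 2) : List ℕ :=
  ((List.finRange l0.length).filter (fun i => v i = 1)).map l0.get

theorem sel_sublist (l0 : List ℕ) (v : Fin l0.length → ZMod 2) : (sel l0 v).Sublist l0 := by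
  have h : ((List.finRange l0.length).map l0.get) = l0 := List.map_get_finRange l0
  have h1 : (sel l0 v).Sublist ((List.finRange l0.length).map l0.get) :=
    List.filter_sublist.map _
  rwa [h] at h1

theorem sel_ne (l0 : List ℕ) {v : Fin l0.length → ZMod 2} (hv : v ≠ 0) : sel l0 v ≠ [] := by
  intro h
  apply hv
  funext i
  have h2 : ∀ x : ZMod 2, x = 1 ∨ x = 0 := by decide
  rcases h2 (v i) with h3 | h3
  · exfalso
    have : l0.get i ∈ sel l0 v := by
      refine List.mem_map.2 ⟨i, ?_, rfl⟩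
      rw [List.mem_filter]
      exact ⟨List.mem_finRange i, by simpa using h3⟩
    rw [h] at this
    exact List.not_mem_nil this
  · exact h3

/-- the homomorphism -/
noncomputable def EE (l0 : List ℕ) (M : ℕ) (hM : ∀ i, l0.get i ∣ M) (v : Fin l0.length → ZMod 2) :
    DirichletCharacter ℂ M :=
  ∏ i, (changeLevel (hM i) (leg (l0.get i))) ^ (v i).val

theorem EE_add (l0 : List ℕ) (M : ℕ) (hM : ∀ i, l0.get i ∣ M) (v w : Fin l0.length → ZMod 2) :
    EE l0 M hM (v + w) = EE l0 M hM v * EE l0 M hM w := by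
  unfold EE
  rw [← Finset.prod_mul_distrib]
  refine Finset.prod_congr rfl fun i _ => ?_
  have hX : (changeLevel (hM i) (leg (l0.get i))) ^ 2 = 1 := by
    rw [← map_pow, leg_sq, map_one]
  have h3 : (∀ a b : ZMod 2, (a + b).val = a.val + b.val ∨ (a + b).val + 2 = a.val + b.val) := by
    decide
  rcases h3 (v i) (w i) with h | h
  · rw [Pi.add_apply, h, pow_add]
  · rw [Pi.add_apply, ← pow_add, ← h, pow_add, hX, mul_one]

theorem prod_filter_pow {α : Type*} (li : List α) (v : α → ZMod 2) (f : α → ℂ) :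
    ((li.filter (fun i => v i = 1)).map f).prod = (li.map fun i => f i ^ (v i).val).prod := by
  induction li with
  | nil => simp
  | cons a li ih =>
    have h2 : ∀ x : ZMod 2, x = 1 ∨ x = 0 := by decide
    rcases h2 (v a) with h | h
    · rw [List.filter_cons_of_pos (by simpa using h), List.map_cons, List.prod_cons, ih,
        List.map_cons, List.prod_cons, h, ZMod.val_one, pow_one]
    · rw [List.filter_cons_of_neg (by simp [h]), ih, List.map_cons, List.prod_cons, h,
        ZMod.val_zero, pow_zero, one_mul]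

theorem EE_eq (l0 : List ℕ) (M : ℕ) (hM0 : M ≠ 0) (hM : ∀ i, l0.get i ∣ M)
    (v : Fin l0.length → ZMod 2) (hd : (sel l0 v).prod ∣ M) :
    EE l0 M hM v = changeLevel hd (psi (sel l0 v)) := by
  haveI : NeZero M := ⟨hM0⟩
  refine MulChar.ext fun u => ?_
  have hu : ((u : ZMod M).val : ZMod M) = u := ZMod.natCast_zmod_val _
  have hc : Nat.Coprime (u : ZMod M).val M := ZMod.val_coe_unit_coprime u
  set n := (u : ZMod M).val with hn
  have hi : IsCoprime (n : ℤ) (M : ℤ) := Nat.isCoprime_iff_coprime.2 hc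
  have e0 : ((n : ℕ) : ZMod M) = ((n : ℤ) : ZMod M) := by norm_cast
  rw [← hu]
  have e1 : (EE l0 M hM v) (n : ZMod M) = ∏ i, (leg (l0.get i) (n : ZMod (l0.get i))) ^ (v i).val := by
    unfold EE
    have e2 : ∀ (s : Finset (Fin l0.length)) (g : Fin l0.length → DirichletCharacter ℂ M),
        (∏ i ∈ s, g i) (n : ZMod M) = ∏ i ∈ s, g i (n : ZMod M) := by
      intro s g
      induction s using Finset.induction_on with
      | empty => rw [Finset.prod_empty, Finset.prod_empty, hu, MulChar.one_apply_coe]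
      | insert a s ha ih => rw [Finset.prod_insert ha, Finset.prod_insert ha, MulChar.mul_apply, ih]
    rw [e2]
    refine Finset.prod_congr rfl fun i _ => ?_
    have e3 : (changeLevel (hM i) (leg (l0.get i))) (n : ZMod M) =
        leg (l0.get i) (n : ZMod (l0.get i)) := by
      rw [e0, changeLevel_eq_cast_of_dvd' _ _ hi]
      norm_cast
    rw [hu, MulChar.pow_apply_coe, ← hu, e3]
  rw [e1, e0, changeLevel_eq_cast_of_dvd' _ _ hi]
  have e4 : psi (sel l0 v) ((n : ℤ) : ZMod (sel l0 v).prod) =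
      psi (sel l0 v) ((n : ℕ) : ZMod (sel l0 v).prod) := by norm_cast
  rw [e4, psi_apply]
  unfold sel
  rw [List.map_map]
  have e5 := prod_filter_pow (List.finRange l0.length) v
    ((fun p => leg p (n : ZMod p)) ∘ l0.get)
  rw [e5, ← List.ofFn_eq_map, List.prod_ofFn]
  rfl

/-- the goal for one character: a group of order `2^r` of characters without real zeros -/
def Goal (q r : ℕ) (p : Σ N : ℕ, DirichletCharacter ℂ N) : Prop :=
  ∃ (M : ℕ) (_ : M ≠ 0) (hN : p.1 ∣ M) (hq : q ∣ M) (G : Subgroup (DirichletCharacter ℂ M)),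
    Nat.card G = 2 ^ r ∧ (∀ g ∈ G, g ^ 2 = 1) ∧ (∀ g ∈ G, g ≠ 1 → Positive ⟨M, g⟩) ∧
    (∀ g ∈ G, ∃ ψ : DirichletCharacter ℂ q, ψ ^ 2 = 1 ∧
      (g = changeLevel hq ψ ∨ g = changeLevel hN p.2 * changeLevel hq ψ)) ∧
    ∃ ψ : DirichletCharacter ℂ q, ψ ^ 2 = 1 ∧ changeLevel hN p.2 * changeLevel hq ψ ∈ G

theorem five_prime : ∀ p ∈ five, p.Prime ∧ Odd p := by
  intro p hp
  simp only [five, List.mem_cons, List.not_mem_nil, or_false] at hp
  rcases hp with rfl | rfl | rfl | rfl | rfl <;> exact ⟨by norm_num, by decide⟩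

theorem main (l0 : List ℕ) (hl0 : l0.Sublist five) (hr : 1 ≤ l0.length)
    (S : Finset ℕ) (hS : ∀ p ∈ S, p.Prime) (hSl : ∀ p ∈ S, p ∉ l0) (c : ℕ → ℤ)
    (hc : ∀ p ∈ S, c p = 0 ∨ c p = 1 ∨ c p = -1) (s : ℤ) (hs : s = 1 ∨ s = -1) :
    ∃ X0 : ℕ, ∀ X : ℕ, X0 ≤ X →
      (1 - 1351 / 10000 * 2 ^ l0.length / (l0.length + 1) : ℝ) * ((Class S c s X).ncard : ℝ) ≤
        ((Class S c s X ∩ {p | Goal l0.prod l0.length p}).ncard : ℝ) := by
  classical
  obtain ⟨hfin, -, h3, -⟩ :=
    Pool.Agent.Results.MP_0016c7_nt.SimultaneousTwists.result S hS c hc s hs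
  have hcardV : Fintype.card (Fin l0.length → ZMod 2) = 2 ^ l0.length := by
    rw [Fintype.card_fun, ZMod.card, Fintype.card_fin]
  let e : Fin (2 ^ l0.length) ≃ (Fin l0.length → ZMod 2) := (Fintype.equivFinOfCardEq hcardV).symm
  -- primes of the list
  have hprime : ∀ p ∈ l0, p.Prime ∧ Odd p := fun p hp => five_prime p (hl0.subset hp)
  have hdvd : ∀ v : Fin l0.length → ZMod 2, (sel l0 v).prod ∣ l0.prod := fun v =>
    (sel_sublist l0 v).prod_dvd_prod
  have hq0 : l0.prod ≠ 0 := by
    intro h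
    rw [List.prod_eq_zero_iff] at h
    exact (hprime 0 h).1.ne_zero rfl
  have hs0 : ∀ v : Fin l0.length → ZMod 2, (sel l0 v).prod ≠ 0 := fun v h => by
    have := hdvd v
    rw [h, zero_dvd_iff] at this
    exact hq0 this
  have hodd : Odd l0.prod := by
    have : ∀ l : List ℕ, (∀ p ∈ l, Odd p) → Odd l.prod := by
      intro l hl
      induction l with
      | nil => exact odd_one
      | cons a l ih =>
        rw [List.prod_cons]
        exact (hl a List.mem_cons_self).mul (ih fun p hp => hl p (List.mem_cons_of_mem _ hp))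
    exact this l0 fun p hp => (hprime p hp).2
  have hnot : ∀ p ∈ S, ¬ p ∣ l0.prod := by
    intro p hp hd
    rw [(hS p hp).prime.dvd_prod_iff] at hd
    obtain ⟨a, ha, hpa⟩ := hd
    have := (Nat.prime_dvd_prime_iff_eq (hS p hp) (hprime a ha).1).1 hpa
    subst this
    exact hSl p hp ha
  -- the twists
  let Ψ : (Fin l0.length → ZMod 2) → (Σ N : ℕ, DirichletCharacter ℂ N) := fun v =>
    ⟨(psi (sel l0 v)).conductor, (psi (sel l0 v)).primitiveCharacter⟩
  have hcond : ∀ v, (psi (sel l0 v)).conductor ∣ l0.prod := fun v =>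
    (psi (sel l0 v)).conductor_dvd_level.trans (hdvd v)
  have hΨsq : ∀ v, (psi (sel l0 v)).primitiveCharacter ^ 2 = 1 := by
    intro v
    haveI : NeZero (sel l0 v).prod := ⟨hs0 v⟩
    apply changeLevel_injective (psi (sel l0 v)).conductor_dvd_level
    rw [map_pow, changeLevel_primitiveCharacter, psi_sq, map_one]
  have hΨ : ∀ i, Twister S (Ψ (e i)) := fun i =>
    ⟨Odd.of_dvd_nat hodd (hcond _), primitiveCharacter_isPrimitive _, hΨsq _,
      fun p hp hd => hnot p hp (hd.trans (hcond _))⟩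
  obtain ⟨X0, hX0⟩ := h3 (2 ^ l0.length) (fun i => Ψ (e i)) hΨ
  refine ⟨X0, fun X hX => ?_⟩
  have key := hX0 X hX l0.length
  push_cast at key
  refine key.trans ?_
  have hsub : Class S c s X ∩ {p | {i | ¬ Positive (twist p (Ψ (e i)))}.ncard ≤ l0.length} ⊆
      Class S c s X ∩ {p | Goal l0.prod l0.length p} := by
    rintro p ⟨hp, hp2⟩
    refine ⟨hp, ?_⟩
    obtain ⟨hp0, -, -, hsq, hp1, -⟩ := hp
    rw [Set.mem_ofPred_eq] at hp2
    -- the level
    have hM0 : p.1 * l0.prod ≠ 0 := mul_ne_zero hp0 hq0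
    have hN : p.1 ∣ p.1 * l0.prod := dvd_mul_right _ _
    have hq : l0.prod ∣ p.1 * l0.prod := dvd_mul_left _ _
    have hgi : ∀ i, l0.get i ∣ p.1 * l0.prod := fun i =>
      (List.dvd_prod (List.get_mem l0 i)).trans hq
    haveI : NeZero (p.1 * l0.prod) := ⟨hM0⟩
    let A : Finset (Fin l0.length → ZMod 2) :=
      Finset.univ.filter fun v => ¬ Positive (twist p (Ψ v))
    have hA : A.card ≤ l0.length := by
      have h5 : A.card = {i | ¬ Positive (twist p (Ψ (e i)))}.ncard := by
        have h6 : {i | ¬ Positive (twist p (Ψ (e i)))} =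
            ((A.map e.symm.toEmbedding : Finset _) : Set (Fin (2 ^ l0.length))) := by
          ext i
          simp only [Set.mem_ofPred_eq, Finset.coe_map, Equiv.coe_toEmbedding, Set.mem_image,
            Finset.mem_coe, A, Finset.mem_filter, Finset.mem_univ, true_and]
          constructor
          · intro h7
            exact ⟨e i, h7, by simp⟩
          · rintro ⟨v, h7, rfl⟩
            simpa using h7
        rw [h6, Set.ncard_coe_finset, Finset.card_map]
      rw [h5]
      exact hp2
    have hEE : ∀ v, EE l0 (p.1 * l0.prod) hgi v =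
        changeLevel hq (changeLevel (hdvd v) (psi (sel l0 v))) := fun v => by
      rw [← changeLevel_trans, ← EE_eq l0 _ hM0 hgi v]
    have hsq2 : ∀ v, changeLevel (hdvd v) (psi (sel l0 v)) ^ 2 = 1 := fun v => by
      rw [← map_pow, psi_sq, map_one]
    obtain ⟨G, hG1, hG2, hG3, hG4, v, hv⟩ := exists_subgroup hr (EE l0 (p.1 * l0.prod) hgi)
      (EE_add l0 _ hgi) (changeLevel hN p.2)
      (by rw [← map_mul, ← pow_two, hsq, map_one])
      (fun g => Positive ⟨p.1 * l0.prod, g⟩) (not_pos_one _ hM0)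
      (fun v hv => by
        rw [EE_eq l0 _ hM0 hgi v ((hdvd v).trans hq)]
        exact pos_level (hs0 v) hM0 _ _ (psi_sq _)
          (seeds _ ((sel_sublist l0 v).trans hl0) (sel_ne l0 hv)))
      A hA
      (fun v hv => by
        have h5 : Positive (twist p (Ψ v)) := by
          by_contra h
          exact hv (Finset.mem_filter.2 ⟨Finset.mem_univ _, h⟩)
        have hlcm : Nat.lcm p.1 (psi (sel l0 v)).conductor ∣ p.1 * l0.prod :=
          Nat.lcm_dvd hN ((hcond v).trans hq)
        have hl0' : Nat.lcm p.1 (psi (sel l0 v)).conductor ≠ 0 :=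
          fun h => hM0 (by rw [h, zero_dvd_iff] at hlcm; exact hlcm)
        have h6 := pos_level hl0' hM0 hlcm (p.2.mul (psi (sel l0 v)).primitiveCharacter)
          (by
            unfold DirichletCharacter.mul
            rw [mul_pow, ← map_pow, ← map_pow, hsq, hΨsq, map_one, map_one, one_mul]) h5
        have h7 : changeLevel hlcm (p.2.mul (psi (sel l0 v)).primitiveCharacter) =
            changeLevel hN p.2 * EE l0 (p.1 * l0.prod) hgi v := by
          rw [EE_eq l0 _ hM0 hgi v ((hdvd v).trans hq)]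
          unfold DirichletCharacter.mul
          rw [map_mul, ← changeLevel_trans, ← changeLevel_trans]
          congr 1
          conv_rhs => rw [← changeLevel_primitiveCharacter (psi (sel l0 v)), ← changeLevel_trans]
        rw [h7] at h6
        exact h6)
    refine ⟨p.1 * l0.prod, hM0, hN, hq, G, hG1, hG2, hG3, fun g hg => ?_,
      changeLevel (hdvd v) (psi (sel l0 v)), hsq2 v, ?_⟩
    · obtain ⟨w, hw⟩ := hG4 g hg
      refine ⟨changeLevel (hdvd w) (psi (sel l0 w)), hsq2 w, ?_⟩
      rw [← hEE w]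
      exact hw
    · rw [← hEE v]
      exact hv
  exact_mod_cast Set.ncard_le_ncard hsub ((hfin X).subset Set.inter_subset_left)

end Pool.Agent.H5.Seeds
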